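import Pool.Agent.H156R3.ConeFin

set_option autoImplicit false

namespace Pool.Agent.Results.MP_3a0237_al.ZFCExample

open Pool.Agent.H156R3

/-- In ZFC there is an abelian Hausdorff paratopological group which is countably pracompact,
pseudocompact, Baire and 2-pseudocompact, and which is not a topological group: it satisfies
conditions (2), (3) and (4) of Q1. -/
theorem result : ∃ (G : Type) (_ : CommGroup G) (_ : TopologicalSpace G),
    ContinuousMul G ∧ T2Space G ∧ CountablyPracompact G ∧ Pseudocompact G ∧ BaireSpace G ∧
      TwoPseudocompact G ∧ ¬ ContinuousInv G :=
  example_cone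

end Pool.Agent.Results.MP_3a0237_al.ZFCExample
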